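import Pool.Agent.P.MP_c9efbf_co.Main

/-!
# A toroidal polyhedron with convex faces whose faces are not four-colourable

Space is `Fin 3 → ℝ` with its usual topology. The example has 13 faces, 33 edges, 20 vertices.
-/

namespace Pool.Agent.Results.MP_c9efbf_co.FiveColours

/-- `F` is a convex polygon lying in a plane: the convex hull of finitely many points, contained in
a plane and not contained in a line. -/
def IsPolygon (F : Set (Fin 3 → ℝ)) : Prop :=
  ∃ V : Finset (Fin 3 → ℝ), F = convexHull ℝ (V : Set (Fin 3 → ℝ)) ∧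
    Coplanar ℝ F ∧ ¬ Collinear ℝ F

/-- `e` is an edge of the convex polygon `F`: a nondegenerate segment that is an extreme subset
(a face in the sense of convexity) of `F`. -/
def IsEdge (F e : Set (Fin 3 → ℝ)) : Prop :=
  ∃ a b, a ≠ b ∧ e = segment ℝ a b ∧ IsExtreme ℝ F e

/-- The sets `F i` are the faces of a toroidal polyhedron. -/
def IsToroidalPolyhedron {n : ℕ} (F : Fin n → Set (Fin 3 → ℝ)) : Prop :=
  (∀ i, IsPolygon (F i)) ∧
  (∀ i e, IsEdge (F i) e → ∃! j, j ≠ i ∧ IsEdge (F j) e) ∧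
  Nonempty ((⋃ i, F i : Set (Fin 3 → ℝ)) ≃ₜ Circle × Circle) ∧
  (∀ i j, i ≠ j → F i ∩ F j = ∅ ∨
    (∃ v, v ∈ (F i).extremePoints ℝ ∧ v ∈ (F j).extremePoints ℝ ∧ F i ∩ F j = {v}) ∨
    (IsEdge (F i) (F i ∩ F j) ∧ IsEdge (F j) (F i ∩ F j))) ∧
  (∀ i j, i ≠ j → (∃ e, IsEdge (F i) e ∧ IsEdge (F j) e) → ¬ Coplanar ℝ (F i ∪ F j))

open Pool.Agent.P.MP_c9efbf_co in
/-- There is a toroidal polyhedron (with 13 faces) that has no proper face colouring with four
colours. -/
theorem result : ∃ F : Fin 13 → Set (Fin 3 → ℝ), IsToroidalPolyhedron F ∧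
    ¬ ∃ c : Fin 13 → Fin 4, ∀ i j, i ≠ j → (∃ e, IsEdge (F i) e ∧ IsEdge (F j) e) → c i ≠ c j :=
  ⟨face, ⟨polygon, edge_to_edge, torus, fun _ _ h => meet h, fun _ _ h _ => noncoplanar h⟩,
    not_four⟩

end Pool.Agent.Results.MP_c9efbf_co.FiveColours
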